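import Pool.Agent.N483.KM.All
import Pool.Agent.R755.KF.P3W
import Pool.Agent.Run7.h444.ER5

/-!
# Concentration of symmetric sets: smoothing (helper444)
-/

set_option autoImplicit false

namespace Run7.h444.SC

open MeasureTheory Set Filter Topology
open scoped ENNReal InnerProductSpace
open Pool.Agent.H212R2.KLS (mu Bdd)
open Pool.Agent.H888R2.KT (LC gs pst gc hs key equiv gs_deriv l2step)
open Pool.Agent.H888R2.KT.N9x (W W_le W_eq int_cont mass_pos grad_cont)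
open Pool.Agent.R754.KG (E un)
open Pool.Agent.R755.KF (BL PB)
open Pool.Agent.R755.KF.T36
open Pool.Agent.N483.KM (po LCI CR)

/-- even log-concave densities of symmetric bodies, normalised -/
structure SB {k : ℕ} (ρ : E k → ℝ) : Prop where
  lc : LC ρ
  even : ∀ x, ρ (-x) = ρ x
  lci : LCI (mu ρ)

variable {k : ℕ} {ρ : E k → ℝ}

theorem SB.pb (hρ : SB ρ) : ∃ B : ℝ, 0 ≤ B ∧ PB B (mu ρ) :=
  (Pool.Agent.N483.KM.lciR k (mu ρ) hρ.lci).2.2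

theorem SB.prob (hρ : SB ρ) : IsProbabilityMeasure (mu ρ) := by
  obtain ⟨B, -, hB⟩ := hρ.pb
  exact hB.prob

/-- smoothing -/
noncomputable def sm (h : ℝ) (ρ : E k → ℝ) (u : E k → ℝ) : E k → ℝ := gs h (pst h ρ u)

theorem pstR : Pool.Agent.N483.KM.S_PST := Pool.Agent.N692.KM.t_PST Pool.Agent.N401.KM.t_BLI

theorem sm_props (hρ : SB ρ) {h a C0 L : ℝ} (hh : 0 < h) (ha : 0 < a) {f : E k → ℝ}
    (hf : BL C0 f) (hfa : ∀ y, |f y| ≤ a) (hL : 0 ≤ L) (hfL : ∀ y, ‖fderiv ℝ f y‖ ≤ L) :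
    BL (max a L) (sm h ρ f) ∧ (∀ y, |sm h ρ f y| ≤ a) ∧
    (∀ y, ‖fderiv ℝ (sm h ρ f) y‖ ≤ a / Real.sqrt h) ∧ (∀ y, ‖fderiv ℝ (sm h ρ f) y‖ ≤ L) := by
  obtain ⟨B, hB0, hν⟩ := hρ.pb
  have hprob := hν.prob
  obtain ⟨hF1, hF2, hF3, hF4, hF5⟩ := pstR k (mu ρ) h a C0 f hρ.lci hh ha hf hfa
  have hfc : Continuous f := hf.c1.continuous
  have hf2c : Continuous fun x => f x ^ 2 := hfc.pow 2
  have hf2b : ∀ x, f x ^ 2 ≤ a ^ 2 := fun x => by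
    rw [← sq_abs]
    exact pow_le_pow_left₀ (abs_nonneg _) (hfa x) 2
  have hgc := cont_nfd hf
  have hgb : ∀ x, ‖fderiv ℝ f x‖ ^ 2 ≤ L ^ 2 := fun x =>
    pow_le_pow_left₀ (norm_nonneg _) (hfL x) 2
  obtain ⟨F, hFdef⟩ : ∃ F, F = po h (mu ρ) f := ⟨_, rfl⟩
  have hsm : sm h ρ f = gs h F := by rw [hFdef]; rfl
  rw [← hFdef] at hF1 hF2 hF3 hF4
  have hFc : Continuous F := hF1.continuous
  have hsq : 0 < Real.sqrt h := Real.sqrt_pos.2 hh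
  have hL0 : 0 ≤ a / Real.sqrt h := by positivity
  have hPb : ∀ y, po h (mu ρ) (fun x => f x ^ 2) y ≤ a ^ 2 := fun y =>
    Pool.Agent.N342.KM.po_le hν hf2c (sq_nonneg _) hf2b y
  have hGb : ∀ y, po h (mu ρ) (fun x => ‖fderiv ℝ f x‖ ^ 2) y ≤ L ^ 2 := fun y =>
    Pool.Agent.N342.KM.po_le hν hgc (sq_nonneg _) hgb y
  have hDF : ∀ y, ‖fderiv ℝ F y‖ ≤ a / Real.sqrt h := by
    intro y
    have e1 := hF3 y
    have e2 := hPb y
    have e3 : h * ‖fderiv ℝ F y‖ ^ 2 ≤ a ^ 2 := by nlinarith [sq_nonneg (F y)]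
    have e4 : ‖fderiv ℝ F y‖ ^ 2 ≤ (a / Real.sqrt h) ^ 2 := by
      rw [div_pow, Real.sq_sqrt hh.le, le_div_iff₀ hh]
      linarith
    exact (abs_le_of_sq_le_sq' e4 hL0).2
  have hDF2 : ∀ y, ‖fderiv ℝ F y‖ ≤ L := by
    intro y
    have e1 := (hF3 y).trans (hF4 y)
    have e2 := hGb y
    have e3 : h * ‖fderiv ℝ F y‖ ^ 2 ≤ h * L ^ 2 := e1.trans (mul_le_mul_of_nonneg_left e2 hh.le)
    have e4 : ‖fderiv ℝ F y‖ ^ 2 ≤ L ^ 2 := le_of_mul_le_mul_left e3 hh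
    exact (abs_le_of_sq_le_sq' e4 hL).2
  have hBL : BL (max a L) F :=
    ⟨hF1, fun y => (hF2 y).trans (le_max_left _ _), fun y => (hDF2 y).trans (le_max_right _ _)⟩
  have hg := gs_deriv h hh F hBL.c1 (max a L) hBL.bd hBL.gd
  have g1 : ∀ y, |gs h F y| ≤ a := fun y => Pool.Agent.R755.KF.T6aux.gs_le_bd hh hFc hF2 y
  have g2 : ∀ y, ‖fderiv ℝ (gs h F) y‖ ≤ a / Real.sqrt h := fun y =>
    Pool.Agent.R755.KF.T6aux.grad_le hh hBL hL0 hDF y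
  have g3 : ∀ y, ‖fderiv ℝ (gs h F) y‖ ≤ L := fun y =>
    Pool.Agent.R755.KF.T6aux.grad_le hh hBL hL hDF2 y
  rw [hsm]
  exact ⟨⟨hg.1, fun y => (g1 y).trans (le_max_left _ _), fun y => (g3 y).trans (le_max_right _ _)⟩,
    g1, g2, g3⟩

theorem neg_ex : ∃ g : E k ≃ₗᵢ[ℝ] E k, ∀ x, g x = -x :=
  ⟨LinearIsometryEquiv.neg ℝ, Run7.h444.ER.neg_iso⟩

theorem sm_even (hρ : SB ρ) (h : ℝ) {u : E k → ℝ} (hu : ∀ x, u (-x) = u x) (x : E k) :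
    sm h ρ u (-x) = sm h ρ u x := by
  obtain ⟨g, hg⟩ := neg_ex (k := k)
  have := equiv hρ.lc h g (fun x => by rw [hg, hρ.even]) u (fun x => by rw [hg, hu]) x
  rw [hg] at this
  exact this

theorem sm_odd (hρ : SB ρ) (h : ℝ) {u : E k → ℝ} (hu : ∀ x, u (-x) = -u x) (x : E k) :
    sm h ρ u (-x) = -sm h ρ u x :=
  Run7.h444.ER.odd_equiv hρ.lc hρ.even h u hu x

/-- invariance of the integral -/
theorem int_neg (hρ : SB ρ) (F : E k → ℝ) : ∫ x, F (-x) ∂(mu ρ) = ∫ x, F x ∂(mu ρ) := by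
  obtain ⟨g, hg⟩ := neg_ex (k := k)
  have := Pool.Agent.H888R2.KT.N10x.int_comp hρ.lc.meas g (fun x => by rw [hg, hρ.even]) F
  simpa only [hg] using this

/-- variance -/
noncomputable def Vr {k : ℕ} (ν : Measure (E k)) (f : E k → ℝ) : ℝ :=
  (∫ x, f x ^ 2 ∂ν) - (∫ x, f x ∂ν) ^ 2

/-- energy -/
noncomputable def Dr {k : ℕ} (ν : Measure (E k)) (f : E k → ℝ) : ℝ :=
  ∫ x, ‖fderiv ℝ f x‖ ^ 2 ∂ν

theorem Dr_nonneg {ν : Measure (E k)} (f : E k → ℝ) : 0 ≤ Dr ν f :=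
  integral_nonneg fun x => by positivity

theorem SB.real (hρ : SB ρ) : (mu ρ).real univ = 1 := by
  have := hρ.prob
  simp

theorem W_Vr (hρ : SB ρ) (f : E k → ℝ) : W ρ f = Vr (mu ρ) f := by
  unfold W Vr
  rw [hρ.real, div_one]

theorem Vr_le (hρ : SB ρ) {f : E k → ℝ} (hf : Continuous f) (c : ℝ) :
    Vr (mu ρ) f ≤ ∫ x, (f x - c) ^ 2 ∂(mu ρ) := by
  rw [← W_Vr hρ]
  exact W_le hρ.lc hf c

theorem sm_step (hρ : SB ρ) {h : ℝ} (hh : 0 < h) {u : E k → ℝ} (hu : ContDiff ℝ 1 u) :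
    Vr (mu ρ) u ≤ Vr (mu ρ) (sm h ρ u) + 2 * h * Dr (mu ρ) u := by
  obtain ⟨h4, h5⟩ := l2step hρ.lc h hh u hu
  unfold Vr Dr sm
  rw [h4]
  linarith

/-- second order inequality -/
theorem sm_key (hρ : SB ρ) {h : ℝ} (hh : 0 < h) {u : E k → ℝ} (hu : ContDiff ℝ 1 u) :
    ContDiff ℝ 2 (sm h ρ u) ∧
      Dr (mu ρ) (sm h ρ u) + h * ∫ x, hs (sm h ρ u) x ∂(mu ρ) ≤ Dr (mu ρ) u := by
  obtain ⟨h1, h2⟩ := key hρ.lc (fun j : Fin 0 => (j.elim0 : E k))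
      ⟨fun j => j.elim0, fun j => j.elim0⟩ 1 one_pos (Run7.h444.ER.St0 hρ.lc 1 _) h hh u hu
  refine ⟨h1, ?_⟩
  have h1' : ContDiff ℝ 1 (gs h (pst h ρ u)) := h1.of_le (by norm_num)
  unfold Dr sm
  have i2 : Integrable (fun x => h * hs (gs h (pst h ρ u)) x) (mu ρ) :=
    int_cont hρ.lc (continuous_const.mul (Pool.Agent.H888R2.KT.N9x.hs_cont h1))
  rw [← integral_const_mul, ← integral_add (int_cont hρ.lc (grad_cont h1')) i2]
  refine le_trans (le_of_eq ?_) h2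
  refine integral_congr_ae (Filter.Eventually.of_forall fun x => ?_)
  simp

end Run7.h444.SC
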