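import Pool.Agent.Run7.h444.SC.A

/-!
# Concentration of symmetric sets: even functions (helper444)
-/

set_option autoImplicit false

namespace Run7.h444.SC

open MeasureTheory Set Filter Topology Metric
open scoped ENNReal InnerProductSpace
open Pool.Agent.H212R2.KLS (mu Bdd)
open Pool.Agent.H888R2.KT (LC gs pst gc hs key equiv gs_deriv l2step)
open Pool.Agent.H888R2.KT.N9x (W W_le W_eq int_cont mass_pos grad_cont)
open Pool.Agent.R754.KG (E un)
open Pool.Agent.R755.KF (BL PB)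
open Pool.Agent.R755.KF.T36
open Pool.Agent.N483.KM (po LCI CR)

variable {k : ℕ} {ρ : E k → ℝ}

/-- concentration of symmetric sets -/
def SymC {k : ℕ} (ν : Measure (E k)) (p r : ℝ) : Prop :=
  ∀ S : Set (E k), MeasurableSet S → (∀ x, x ∈ S → -x ∈ S) → 1 / 2 ≤ ν.real S →
    1 - p ≤ ν.real (thickening r S)

theorem med {ν : Measure (E k)} [IsProbabilityMeasure ν] {B : ℝ} (hν : PB B ν) {g : E k → ℝ}
    (hg : Continuous g) (h1 : ∀ x, |g x| ≤ 1) : ∃ m : ℝ, |m| ≤ 1 ∧
      1 / 2 ≤ ν.real {x | g x ≤ m} ∧ 1 / 2 ≤ ν.real {x | m ≤ g x} := by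
  have hK : IsCompact (closedBall (0 : E k) B) := isCompact_closedBall _ _
  have hc : ν (closedBall (0 : E k) B)ᶜ = 0 := by
    have := hν.bdd
    rw [ae_iff] at this
    refine measure_mono_null (fun x hx => ?_) this
    simpa [mem_closedBall, dist_zero_right] using hx
  obtain ⟨m, hm1, hm2⟩ := Run7.h444.ER.median ν hK hc hg
  have hm : ∀ S : Set (E k), MeasurableSet S → ν S ≤ ν Sᶜ → 1 / 2 ≤ ν.real Sᶜ := by
    intro S hS h
    have h2 := measureReal_add_measureReal_compl (μ := ν) hS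
    have h3 : ν.real S ≤ ν.real Sᶜ := (ENNReal.toReal_le_toReal (measure_ne_top _ _)
      (measure_ne_top _ _)).2 h
    simp only [probReal_univ] at h2
    linarith
  have e1 : {x | m < g x}ᶜ = {x | g x ≤ m} := by ext x; simp
  have e2 : {x | g x < m}ᶜ = {x | m ≤ g x} := by ext x; simp
  have a1 := hm _ (measurableSet_lt measurable_const hg.measurable) hm1
  have a2 := hm _ (measurableSet_lt hg.measurable measurable_const) hm2
  rw [e1] at a1
  rw [e2] at a2
  refine ⟨m, ?_, a1, a2⟩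
  rw [abs_le]
  constructor
  · by_contra hn
    rw [not_le] at hn
    have : {x | g x ≤ m} = ∅ := by
      ext x
      simp only [mem_ofPred_eq, mem_empty_iff_false, iff_false, not_le]
      have := (abs_le.1 (h1 x)).1
      linarith
    rw [this] at a1
    simp at a1
    norm_num at a1
  · by_contra hn
    rw [not_le] at hn
    have : {x | m ≤ g x} = ∅ := by
      ext x
      simp only [mem_ofPred_eq, mem_empty_iff_false, iff_false, not_le]
      have := (abs_le.1 (h1 x)).2
      linarith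
    rw [this] at a2
    simp at a2
    norm_num at a2

/-- even Lipschitz functions have small variance -/
theorem even_lip (hρ : SB ρ) {p r L : ℝ} (hr : 0 < r) (hp : 0 ≤ p) (hS : SymC (mu ρ) p r)
    (hL : 0 ≤ L) {g : E k → ℝ} (hg : ContDiff ℝ 1 g) (h1 : ∀ x, |g x| ≤ 1)
    (hgL : ∀ x, ‖fderiv ℝ g x‖ ≤ L) (he : ∀ x, g (-x) = g x) :
    Vr (mu ρ) g ≤ (L * r) ^ 2 + 8 * p := by
  obtain ⟨B, hB0, hν⟩ := hρ.pb
  have hprob := hν.prob
  have hgc := hg.continuous
  obtain ⟨m, hm, h2, h3⟩ := med hν hgc h1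
  have hlip : ∀ x y, |g x - g y| ≤ L * dist x y := by
    intro x y
    have := convex_univ.norm_image_sub_le_of_norm_fderiv_le (𝕜 := ℝ) (f := g)
      (fun z _ => (hg.differentiable (by norm_num)) z) (fun z _ => hgL z) (mem_univ y) (mem_univ x)
    rw [Real.norm_eq_abs, ← dist_eq_norm] at this
    exact this
  have ms1 : MeasurableSet {x | g x ≤ m} := measurableSet_le hgc.measurable measurable_const
  have ms2 : MeasurableSet {x | m ≤ g x} := measurableSet_le measurable_const hgc.measurable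
  have c1 := hS _ ms1 (fun x hx => by
    have hx' : g x ≤ m := hx
    show g (-x) ≤ m
    rw [he]; exact hx') h2
  have c2 := hS _ ms2 (fun x hx => by
    have hx' : m ≤ g x := hx
    show m ≤ g (-x)
    rw [he]; exact hx') h3
  obtain ⟨T1, hT1⟩ : ∃ T, T = thickening r {x | g x ≤ m} := ⟨_, rfl⟩
  obtain ⟨T2, hT2⟩ : ∃ T, T = thickening r {x | m ≤ g x} := ⟨_, rfl⟩
  rw [← hT1] at c1
  rw [← hT2] at c2
  have mT1 : MeasurableSet T1 := by rw [hT1]; exact isOpen_thickening.measurableSet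
  have mT2 : MeasurableSet T2 := by rw [hT2]; exact isOpen_thickening.measurableSet
  have b1 : ∀ x ∈ T1, g x - m ≤ L * r := by
    intro x hx
    rw [hT1] at hx
    obtain ⟨y, hy, hxy⟩ := mem_thickening_iff.1 hx
    have hy' : g y ≤ m := hy
    have h5 := (abs_le.1 (hlip x y)).2
    have h6 : L * dist x y ≤ L * r := mul_le_mul_of_nonneg_left hxy.le hL
    linarith
  have b2 : ∀ x ∈ T2, m - g x ≤ L * r := by
    intro x hx
    rw [hT2] at hx
    obtain ⟨y, hy, hxy⟩ := mem_thickening_iff.1 hx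
    have hy' : m ≤ g y := hy
    have h5 := (abs_le.1 (hlip x y)).1
    have h6 : L * dist x y ≤ L * r := mul_le_mul_of_nonneg_left hxy.le hL
    linarith
  have n1 : (mu ρ).real T1ᶜ ≤ p := by
    have := measureReal_add_measureReal_compl (μ := mu ρ) mT1
    simp only [probReal_univ] at this
    linarith
  have n2 : (mu ρ).real T2ᶜ ≤ p := by
    have := measureReal_add_measureReal_compl (μ := mu ρ) mT2
    simp only [probReal_univ] at this
    linarith
  refine (Vr_le hρ hgc m).trans ?_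
  have hi1 : Integrable (fun x => (g x - m) ^ 2) (mu ρ) :=
    int_cont hρ.lc ((hgc.sub continuous_const).pow 2)
  have hb : ∀ x, (g x - m) ^ 2 ≤ (L * r) ^ 2 + T1ᶜ.indicator (fun _ => (4 : ℝ)) x +
      T2ᶜ.indicator (fun _ => (4 : ℝ)) x := by
    intro x
    have hx4 : (g x - m) ^ 2 ≤ 4 := by
      have a1 := abs_le.1 (h1 x)
      have a2 := abs_le.1 hm
      nlinarith
    have hLr : 0 ≤ (L * r) ^ 2 := sq_nonneg _
    have i1 : 0 ≤ T1ᶜ.indicator (fun _ => (4 : ℝ)) x := indicator_nonneg (fun _ _ => by norm_num) x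
    have i2 : 0 ≤ T2ᶜ.indicator (fun _ => (4 : ℝ)) x := indicator_nonneg (fun _ _ => by norm_num) x
    by_cases hx1 : x ∈ T1
    · by_cases hx2 : x ∈ T2
      · have h5 := b1 x hx1
        have h6 := b2 x hx2
        have h7 : (g x - m) ^ 2 ≤ (L * r) ^ 2 := by
          rw [← sq_abs (g x - m)]
          refine pow_le_pow_left₀ (abs_nonneg _) ?_ 2
          rw [abs_le]
          constructor <;> linarith
        linarith
      · have e : T2ᶜ.indicator (fun _ => (4 : ℝ)) x = 4 := indicator_of_mem (by exact hx2) _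
        rw [e]
        linarith
    · have e : T1ᶜ.indicator (fun _ => (4 : ℝ)) x = 4 := indicator_of_mem (by exact hx1) _
      rw [e]
      linarith
  have j1 : Integrable (T1ᶜ.indicator fun _ => (4 : ℝ)) (mu ρ) :=
    (integrable_const _).indicator mT1.compl
  have j2 : Integrable (T2ᶜ.indicator fun _ => (4 : ℝ)) (mu ρ) :=
    (integrable_const _).indicator mT2.compl
  have j0 : Integrable (fun x => (L * r) ^ 2 + T1ᶜ.indicator (fun _ => (4 : ℝ)) x) (mu ρ) :=
    (integrable_const _).add j1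
  have j3 : Integrable (fun x => (L * r) ^ 2 + T1ᶜ.indicator (fun _ => (4 : ℝ)) x +
      T2ᶜ.indicator (fun _ => (4 : ℝ)) x) (mu ρ) := j0.add j2
  refine (integral_mono hi1 j3 hb).trans ?_
  have e1 : ∫ x, ((L * r) ^ 2 + T1ᶜ.indicator (fun _ => (4 : ℝ)) x +
      T2ᶜ.indicator (fun _ => (4 : ℝ)) x) ∂(mu ρ) =
      (∫ x, ((L * r) ^ 2 + T1ᶜ.indicator (fun _ => (4 : ℝ)) x) ∂(mu ρ)) +
        ∫ x, T2ᶜ.indicator (fun _ => (4 : ℝ)) x ∂(mu ρ) := integral_add j0 j2
  have e2 : ∫ x, ((L * r) ^ 2 + T1ᶜ.indicator (fun _ => (4 : ℝ)) x) ∂(mu ρ) =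
      (∫ _x, (L * r) ^ 2 ∂(mu ρ)) + ∫ x, T1ᶜ.indicator (fun _ => (4 : ℝ)) x ∂(mu ρ) :=
    integral_add (integrable_const _) j1
  rw [e1, e2, integral_indicator mT1.compl, integral_indicator mT2.compl, setIntegral_const,
    setIntegral_const, integral_const]
  simp only [probReal_univ, smul_eq_mul, one_mul]
  linarith

/-- weak Poincare inequality for even functions -/
theorem even_weak (hρ : SB ρ) {p r h C0 : ℝ} (hr : 0 < r) (hp : 0 ≤ p) (hS : SymC (mu ρ) p r)
    (hh : 0 < h) {f : E k → ℝ} (hf : BL C0 f) (h1 : ∀ x, |f x| ≤ 1)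
    (he : ∀ x, f (-x) = f x) :
    Vr (mu ρ) f ≤ r ^ 2 / h + 8 * p + 2 * h * Dr (mu ρ) f := by
  have hC0 : 0 ≤ C0 := (abs_nonneg _).trans (hf.bd 0)
  obtain ⟨g1, g2, g3, -⟩ := sm_props hρ hh one_pos hf h1 hC0 hf.gd
  have h3 := sm_step hρ hh hf.c1
  have h4 := even_lip hρ hr hp hS (L := 1 / Real.sqrt h) (by positivity) g1.c1 g2 g3
    (sm_even hρ h he)
  have e : (1 / Real.sqrt h * r) ^ 2 = r ^ 2 / h := by
    rw [mul_pow, div_pow, Real.sq_sqrt hh.le]
    ring
  rw [e] at h4
  linarith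

end Run7.h444.SC
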