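import Pool.Agent.Run7.h444.SC.B

/-!
# Concentration of symmetric sets: vector fields (helper444)

Adaptation of `Pool.Agent.R755.KF.P3Waux` (starting library) to even functions.
-/

set_option autoImplicit false

namespace Run7.h444.SC

open MeasureTheory Set Filter Topology
open scoped ENNReal InnerProductSpace
open Pool.Agent.H212R2.KLS (mu Bdd)
open Pool.Agent.H888R2.KT (LC gs pst gc hs)
open Pool.Agent.H888R2.KT.N9x (W W_le W_eq int_cont mass_pos grad_cont)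
open Pool.Agent.R754.KG (E un)
open Pool.Agent.R755.KF (BL PB)
open Pool.Agent.R339.KFaux
open Pool.Agent.R755.KF
open Pool.Agent.R755.KF.P3aux
open Pool.Agent.R755.KF.P3Waux (signs sub_sin bl_comp sumlem)

variable {k : ℕ}

/-- weak Poincare inequality for even functions -/
def EvW {k : ℕ} (A δ : ℝ) (ν : Measure (E k)) : Prop :=
  ∀ (C : ℝ) (f : E k → ℝ), BL C f → (∀ y, |f y| ≤ 1) → (∀ x, f (-x) = f x) →
    (∫ x, f x ^ 2 ∂ν) - (∫ x, f x ∂ν) ^ 2 ≤ δ + A * ∫ x, ‖fderiv ℝ f x‖ ^ 2 ∂ν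

/-- weak Poincaré inequality for large functions with a bounded fourth moment -/
theorem trunc {A δ B C M : ℝ} {ν : Measure (E k)} {G : E k → ℝ} (hA : 0 < A)
    (hB : PB B ν) (hν : EvW A δ ν) (hG : BL C G) (he : ∀ x, G (-x) = G x) (hM : 0 < M) :
    (∫ x, G x ^ 2 ∂ν) - (∫ x, G x ∂ν) ^ 2 ≤
      2 * (M ^ 2 * δ + A * ∫ x, ‖fderiv ℝ G x‖ ^ 2 ∂ν) + 2 / M ^ 2 * ∫ x, G x ^ 4 ∂ν := by
  have := hB.prob
  obtain ⟨hu, hud⟩ := bl_comp hG hM
  have hp := hν _ _ hu (fun y => Real.abs_sin_le_one _) (fun x => by rw [he])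
  have gb := bl_bc hG
  have ub := bl_bc hu
  have gi : Integrable G ν := P3aux.bc_int gb ν
  have g2 : Integrable (fun x => G x ^ 2) ν := P3aux.bc_int gb.sq ν
  have g4 : Integrable (fun x => G x ^ 4) ν := by
    have := P3aux.bc_int gb.sq.sq ν
    refine this.congr (Filter.Eventually.of_forall fun x => ?_)
    simp only
    ring
  have ui : Integrable (fun x => Real.sin (G x / M)) ν := P3aux.bc_int ub ν
  have u2 : Integrable (fun x => Real.sin (G x / M) ^ 2) ν := P3aux.bc_int ub.sq ν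
  have gd : Integrable (fun x => ‖fderiv ℝ G x‖ ^ 2) ν := P3aux.bc_int (gd_bc hG) ν
  set u1 := ∫ x, Real.sin (G x / M) ∂ν with hu1
  set c := M * u1 with hc
  have s1 : ∫ x, (G x - c) ^ 2 ∂ν = (∫ x, G x ^ 2 ∂ν) - 2 * c * (∫ x, G x ∂ν) + c ^ 2 := by
    have e : (fun x => (G x - c) ^ 2) = fun x => G x ^ 2 - 2 * c * G x + c ^ 2 := by
      funext x
      ring
    have J0 : Integrable (fun x => 2 * c * G x) ν := gi.const_mul _
    have J1 : Integrable (fun x => G x ^ 2 - 2 * c * G x) ν := g2.sub J0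
    rw [e, integral_add J1 (integrable_const _), integral_sub g2 J0, integral_const_mul,
      integral_const]
    simp
  have s2 : ∫ x, (G x - c) ^ 2 ∂ν ≤ ∫ x, (2 * (M ^ 2 * Real.sin (G x / M) ^ 2 -
      2 * c * M * Real.sin (G x / M) + c ^ 2) + 2 / M ^ 2 * G x ^ 4) ∂ν := by
    have I1 : Integrable (fun x => (G x - c) ^ 2) ν := by
      have : Integrable (fun x => G x ^ 2 - 2 * c * G x + c ^ 2) ν :=
        (g2.sub (gi.const_mul _)).add (integrable_const _)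
      refine this.congr (Filter.Eventually.of_forall fun x => ?_)
      simp only
      ring
    have I2 : Integrable (fun x => (2 * (M ^ 2 * Real.sin (G x / M) ^ 2 -
        2 * c * M * Real.sin (G x / M) + c ^ 2) + 2 / M ^ 2 * G x ^ 4)) ν :=
      ((((u2.const_mul _).sub (ui.const_mul _)).add (integrable_const _)).const_mul _).add
        (g4.const_mul _)
    refine integral_mono I1 I2 fun x => ?_
    simp only
    set u := Real.sin (G x / M)
    have h1 : |G x / M - u| ≤ (G x / M) ^ 2 := sub_sin _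
    have h2 : (G x / M - u) ^ 2 ≤ ((G x / M) ^ 2) ^ 2 := by
      rw [← sq_abs (G x / M - u)]
      exact pow_le_pow_left₀ (abs_nonneg _) h1 2
    have h3 : (G x - M * u) ^ 2 ≤ G x ^ 4 / M ^ 2 := by
      have e1 : (G x - M * u) ^ 2 = M ^ 2 * (G x / M - u) ^ 2 := by
        field_simp
      have e2 : G x ^ 4 / M ^ 2 = M ^ 2 * ((G x / M) ^ 2) ^ 2 := by
        field_simp
      rw [e1, e2]
      exact mul_le_mul_of_nonneg_left h2 (by positivity)
    have h4 : 2 / M ^ 2 * G x ^ 4 = 2 * (G x ^ 4 / M ^ 2) := by ring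
    rw [h4]
    nlinarith [sq_nonneg ((M * u - c) - (G x - M * u)), h3]
  have s3 : ∫ x, (2 * (M ^ 2 * Real.sin (G x / M) ^ 2 -
      2 * c * M * Real.sin (G x / M) + c ^ 2) + 2 / M ^ 2 * G x ^ 4) ∂ν =
      2 * (M ^ 2 * (∫ x, Real.sin (G x / M) ^ 2 ∂ν) - 2 * c * M * u1 + c ^ 2) +
        2 / M ^ 2 * ∫ x, G x ^ 4 ∂ν := by
    have J0 : Integrable (fun x => M ^ 2 * Real.sin (G x / M) ^ 2) ν := u2.const_mul _
    have J1 : Integrable (fun x => 2 * c * M * Real.sin (G x / M)) ν := ui.const_mul _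
    have J2 : Integrable (fun x => M ^ 2 * Real.sin (G x / M) ^ 2 -
      2 * c * M * Real.sin (G x / M)) ν := J0.sub J1
    have J3 : Integrable (fun x => M ^ 2 * Real.sin (G x / M) ^ 2 -
      2 * c * M * Real.sin (G x / M) + c ^ 2) ν := J2.add (integrable_const _)
    have J4 : Integrable (fun x => 2 * (M ^ 2 * Real.sin (G x / M) ^ 2 -
      2 * c * M * Real.sin (G x / M) + c ^ 2)) ν := J3.const_mul _
    have J5 : Integrable (fun x => 2 / M ^ 2 * G x ^ 4) ν := g4.const_mul _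
    rw [integral_add J4 J5, integral_const_mul, integral_const_mul,
      integral_add J2 (integrable_const _), integral_sub J0 J1,
      integral_const_mul, integral_const_mul, integral_const]
    simp [hu1]
  have s4 : (∫ x, ‖fderiv ℝ (fun x => Real.sin (G x / M)) x‖ ^ 2 ∂ν) ≤
      (∫ x, ‖fderiv ℝ G x‖ ^ 2 ∂ν) / M ^ 2 := by
    rw [← integral_div]
    exact integral_mono_of_nonneg (Filter.Eventually.of_forall fun x => by positivity)
      (gd.div_const _) (Filter.Eventually.of_forall hud)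
  have s5 : M ^ 2 * ((∫ x, Real.sin (G x / M) ^ 2 ∂ν) - u1 ^ 2) ≤
      M ^ 2 * δ + A * ∫ x, ‖fderiv ℝ G x‖ ^ 2 ∂ν := by
    have hM2 : 0 < M ^ 2 := by positivity
    have h1 : A * (∫ x, ‖fderiv ℝ (fun x => Real.sin (G x / M)) x‖ ^ 2 ∂ν) ≤
        A * ((∫ x, ‖fderiv ℝ G x‖ ^ 2 ∂ν) / M ^ 2) := mul_le_mul_of_nonneg_left s4 hA.le
    have h2 : M ^ 2 * ((∫ x, Real.sin (G x / M) ^ 2 ∂ν) - u1 ^ 2) ≤
        M ^ 2 * (δ + A * ((∫ x, ‖fderiv ℝ G x‖ ^ 2 ∂ν) / M ^ 2)) :=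
      mul_le_mul_of_nonneg_left (by linarith) hM2.le
    have h3 : M ^ 2 * (δ + A * ((∫ x, ‖fderiv ℝ G x‖ ^ 2 ∂ν) / M ^ 2)) =
        M ^ 2 * δ + A * ∫ x, ‖fderiv ℝ G x‖ ^ 2 ∂ν := by
      field_simp
    linarith
  rw [s3] at s2
  rw [s1] at s2
  have s6 : 2 * (M ^ 2 * (∫ x, Real.sin (G x / M) ^ 2 ∂ν) - 2 * c * M * u1 + c ^ 2) =
      2 * (M ^ 2 * ((∫ x, Real.sin (G x / M) ^ 2 ∂ν) - u1 ^ 2)) := by
    rw [hc]
    ring
  rw [s6] at s2
  nlinarith [sq_nonneg ((∫ x, G x ∂ν) - c), s2, s5]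

/-- the variance of a vector field -/
theorem vec {A δ B C M R : ℝ} {ν : Measure (E k)} {F : Fin k → E k → ℝ} (hA : 0 < A)
    (hB : PB B ν) (hν : EvW A δ ν) (hF : ∀ j, BL C (F j)) (he : ∀ j x, F j (-x) = F j x)
    (hM : 0 < M) (hR : ∀ x, ∑ j, F j x ^ 2 ≤ R) :
    ∑ j, (∫ x, F j x ^ 2 ∂ν) - ∑ j, (∫ x, F j x ∂ν) ^ 2 ≤
      2 * (M ^ 2 * δ + A * ∑ j, ∫ x, ‖fderiv ℝ (F j) x‖ ^ 2 ∂ν) + 6 / M ^ 2 * R ^ 2 := by
  have := hB.prob
  obtain ⟨Ω, i1, i2, e, h2, h4⟩ := signs k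
  have hC : 0 ≤ C ∨ k = 0 := by
    rcases Nat.eq_zero_or_pos k with h | h
    · exact Or.inr h
    · exact Or.inl ((abs_nonneg _).trans ((hF ⟨0, h⟩).bd 0))
  have hcard : (0 : ℝ) < Fintype.card Ω := by
    exact_mod_cast Fintype.card_pos
  have fder : ∀ (i : Ω) (x : E k), fderiv ℝ (fun x => ∑ j, e i j * F j x) x =
      ∑ j, e i j • fderiv ℝ (F j) x := by
    intro i x
    have : HasFDerivAt (fun x => ∑ j, e i j * F j x) (∑ j, e i j • fderiv ℝ (F j) x) x := by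
      refine HasFDerivAt.fun_sum fun j _ => ?_
      exact (((hF j).c1.differentiable (by norm_num) x).hasFDerivAt).const_mul (e i j)
    exact this.fderiv
  have hG : ∀ i : Ω, BL (∑ j, |e i j| * C) (fun x => ∑ j, e i j * F j x) := by
    intro i
    refine ⟨ContDiff.sum fun j _ => contDiff_const.mul (hF j).c1, fun y => ?_, fun y => ?_⟩
    · refine (Finset.abs_sum_le_sum_abs _ _).trans (Finset.sum_le_sum fun j _ => ?_)
      rw [abs_mul]
      exact mul_le_mul_of_nonneg_left ((hF j).bd y) (abs_nonneg _)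
    · rw [fder]
      refine (norm_sum_le _ _).trans (Finset.sum_le_sum fun j _ => ?_)
      rw [norm_smul, Real.norm_eq_abs]
      exact mul_le_mul_of_nonneg_left ((hF j).gd y) (abs_nonneg _)
  have key := fun i : Ω => trunc hA hB hν (hG i) (fun x => by simp only [he]) hM
  have ksum := Finset.sum_le_sum fun (i : Ω) (_ : i ∈ Finset.univ) => key i
  rw [Finset.sum_sub_distrib, sumlem] at ksum
  -- the four sums
  have t1 : ∑ i, ∫ x, (∑ j, e i j * F j x) ^ 2 ∂ν =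
      (Fintype.card Ω : ℝ) * ∑ j, ∫ x, F j x ^ 2 ∂ν := by
    rw [← integral_finsetSum _ fun i _ => P3aux.bc_int (bl_bc (hG i)).sq ν,
      ← integral_finsetSum _ fun j _ => P3aux.bc_int (bl_bc (hF j)).sq ν, ← integral_const_mul]
    refine integral_congr_ae (Filter.Eventually.of_forall fun x => ?_)
    exact h2 (fun j => F j x)
  have t2 : ∑ i, (∫ x, ∑ j, e i j * F j x ∂ν) ^ 2 =
      (Fintype.card Ω : ℝ) * ∑ j, (∫ x, F j x ∂ν) ^ 2 := by
    rw [← h2]
    refine Finset.sum_congr rfl fun i _ => ?_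
    rw [integral_finsetSum _ fun j _ => (P3aux.bc_int (bl_bc (hF j)) ν).const_mul _]
    congr 1
    exact Finset.sum_congr rfl fun j _ => integral_const_mul _ _
  have t3 : ∑ i, ∫ x, ‖fderiv ℝ (fun x => ∑ j, e i j * F j x) x‖ ^ 2 ∂ν =
      (Fintype.card Ω : ℝ) * ∑ j, ∫ x, ‖fderiv ℝ (F j) x‖ ^ 2 ∂ν := by
    rw [← integral_finsetSum _ fun i _ => P3aux.bc_int (gd_bc (hG i)) ν,
      ← integral_finsetSum _ fun j _ => P3aux.bc_int (gd_bc (hF j)) ν, ← integral_const_mul]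
    refine integral_congr_ae (Filter.Eventually.of_forall fun x => ?_)
    simp only
    have e1 : ∀ i : Ω, ‖fderiv ℝ (fun x => ∑ j, e i j * F j x) x‖ ^ 2 =
        ∑ l, (∑ j, e i j * fderiv ℝ (F j) x (EuclideanSpace.single l 1)) ^ 2 := by
      intro i
      rw [norm_sq_functional]
      refine Finset.sum_congr rfl fun l _ => ?_
      rw [fder, _root_.sum_apply]
      rfl
    rw [Finset.sum_congr rfl fun i _ => e1 i, Finset.sum_comm,
      Finset.sum_congr rfl fun l _ => h2 _, ← Finset.mul_sum, Finset.sum_comm]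
    congr 1
    refine Finset.sum_congr rfl fun j _ => ?_
    rw [norm_sq_functional]
  have t4 : ∑ i, ∫ x, (∑ j, e i j * F j x) ^ 4 ∂ν ≤ 3 * (Fintype.card Ω : ℝ) * R ^ 2 := by
    have i4 : ∀ i : Ω, Integrable (fun x => (∑ j, e i j * F j x) ^ 4) ν := by
      intro i
      have := P3aux.bc_int (bl_bc (hG i)).sq.sq ν
      refine this.congr (Filter.Eventually.of_forall fun x => ?_)
      simp only
      ring
    rw [← integral_finsetSum _ fun i _ => i4 i]
    have : ∫ x, ∑ i, (∑ j, e i j * F j x) ^ 4 ∂ν ≤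
        ∫ _x, 3 * (Fintype.card Ω : ℝ) * R ^ 2 ∂ν := by
      refine integral_mono (integrable_finsetSum _ fun i _ => i4 i) (integrable_const _)
        fun x => ?_
      refine (h4 (fun j => F j x)).trans ?_
      refine mul_le_mul_of_nonneg_left ?_ (by positivity)
      exact pow_le_pow_left₀ (Finset.sum_nonneg fun j _ => sq_nonneg _) (hR x) 2
    simpa using this
  rw [t1, t2, t3] at ksum
  have t6 : 2 / M ^ 2 * ∑ i, ∫ x, (∑ j, e i j * F j x) ^ 4 ∂ν ≤
      2 / M ^ 2 * (3 * (Fintype.card Ω : ℝ) * R ^ 2) :=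
    mul_le_mul_of_nonneg_left t4 (by positivity)
  have t7 : (Fintype.card Ω : ℝ) * (∑ j, (∫ x, F j x ^ 2 ∂ν) - ∑ j, (∫ x, F j x ∂ν) ^ 2) ≤
      (Fintype.card Ω : ℝ) * (2 * (M ^ 2 * δ + A * ∑ j, ∫ x, ‖fderiv ℝ (F j) x‖ ^ 2 ∂ν) +
        6 / M ^ 2 * R ^ 2) := by
    have e1 : 2 / M ^ 2 * (3 * (Fintype.card Ω : ℝ) * R ^ 2) =
      (Fintype.card Ω : ℝ) * (6 / M ^ 2 * R ^ 2) := by ring
    linarith
  exact le_of_mul_le_mul_left t7 hcard


end Run7.h444.SC
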