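import Pool.Agent.Run7.h444.SC.C

/-!
# Concentration of symmetric sets: odd functions (helper444)
-/

set_option autoImplicit false

namespace Run7.h444.SC

open MeasureTheory Set Filter Topology
open scoped ENNReal InnerProductSpace
open Pool.Agent.H212R2.KLS (mu Bdd)
open Pool.Agent.H888R2.KT (LC gs pst gc hs gs_deriv pst_smooth)
open Pool.Agent.H888R2.KT.N9x (W W_le W_eq int_cont mass_pos grad_cont)
open Pool.Agent.R754.KG (E un)
open Pool.Agent.R755.KF (BL PB)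
open Pool.Agent.N483.KM (po LCI CR)

variable {k : ℕ} {ρ : E k → ℝ}

/-- the derivatives of a smoothed function are bounded and have bounded derivatives -/
theorem sm_dir (hρ : SB ρ) {h : ℝ} (hh : 0 < h) {u : E k → ℝ} (hu : Continuous u) :
    ∃ B : ℝ, ∀ w : E k, ‖w‖ ≤ 1 → BL B (fun z => fderiv ℝ (sm h ρ u) z w) := by
  obtain ⟨hg2, B, hB⟩ := pst_smooth hρ.lc h hh u hu
  have hg1 : ContDiff ℝ 1 (pst h ρ u) := hg2.of_le (by norm_num)
  obtain ⟨-, hd⟩ := gs_deriv h hh (pst h ρ u) hg1 B (fun y => (hB y).1) fun y => (hB y).2.1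
  have hB0 : 0 ≤ B := (abs_nonneg _).trans (hB 0).1
  refine ⟨B, fun w hw => ?_⟩
  have e : (fun z => fderiv ℝ (sm h ρ u) z w) = gs h (fun y => fderiv ℝ (pst h ρ u) y w) := by
    funext z
    exact hd z w
  have c1 : ContDiff ℝ 1 (fun y => fderiv ℝ (pst h ρ u) y w) :=
    (hg2.fderiv_right (m := 1) (by norm_num)).clm_apply contDiff_const
  have b1 : ∀ y, |fderiv ℝ (pst h ρ u) y w| ≤ B := by
    intro y
    rw [← Real.norm_eq_abs]
    refine ((fderiv ℝ (pst h ρ u) y).le_opNorm w).trans ?_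
    calc ‖fderiv ℝ (pst h ρ u) y‖ * ‖w‖ ≤ B * 1 :=
          mul_le_mul (hB y).2.1 hw (norm_nonneg _) hB0
      _ = B := mul_one B
  have b2 : ∀ y, ‖fderiv ℝ (fun z => fderiv ℝ (pst h ρ u) z w) y‖ ≤ B := fun y =>
    (hB y).2.2 w hw
  have hBL : BL B (fun y => fderiv ℝ (pst h ρ u) y w) := ⟨c1, b1, b2⟩
  rw [e]
  exact ⟨(gs_deriv h hh _ c1 B b1 b2).1,
    fun y => Pool.Agent.R755.KF.T6aux.gs_le_bd hh c1.continuous b1 y,
    fun y => Pool.Agent.R755.KF.T6aux.grad_le hh hBL hB0 b2 y⟩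

/-- one step for odd functions -/
theorem odd_step (hρ : SB ρ) {A δ s T L C0 : ℝ} (hA : 0 < A) (hs0 : 0 ≤ s)
    (hcov : ∀ w : E k, ∫ x, ⟪x, w⟫_ℝ ^ 2 ∂(mu ρ) ≤ s * ‖w‖ ^ 2)
    (hδ : 0 ≤ δ) (hE : EvW A δ (mu ρ)) (hT : 0 < T) (hL : 0 < L) {u : E k → ℝ} (hu : BL C0 u)
    (h1 : ∀ x, |u x| ≤ 1) (hLu : ∀ x, ‖fderiv ℝ u x‖ ≤ L) (hodd : ∀ x, u (-x) = -u x) :
    Dr (mu ρ) (sm (2 * A + 2 * s) ρ u) ≤
      1 / 2 * Dr (mu ρ) u + L ^ 2 * (2 * T ^ 2 * δ + 6 / T ^ 2) := by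
  obtain ⟨h, hhd⟩ : ∃ h, h = 2 * A + 2 * s := ⟨_, rfl⟩
  have hh : 0 < h := by rw [hhd]; positivity
  rw [← hhd]
  obtain ⟨B0, hB0, hPB⟩ := hρ.pb
  obtain ⟨k1, k2⟩ := sm_key hρ hh hu.c1
  obtain ⟨B, hB⟩ := sm_dir hρ hh hu.c1.continuous
  obtain ⟨-, -, -, p4⟩ := sm_props hρ hh one_pos hu h1 hL.le hLu
  have k1' : ContDiff ℝ 1 (sm h ρ u) := k1.of_le (by norm_num)
  have hvo := sm_odd hρ h hodd
  have hm := Run7.h444.ER.mean_grad_sum hρ.lc h hh u hu.c1 s hs0 (fun w => by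
    rw [hρ.real, mul_one]; exact hcov w) k1'
  rw [hρ.real, mul_one] at hm
  have hm' : h * ∑ i : Fin k, (∫ x, fderiv ℝ (sm h ρ u) x (EuclideanSpace.single i 1) ∂(mu ρ)) ^ 2 ≤
      s * Dr (mu ρ) u := hm
  obtain ⟨v, hv⟩ : ∃ v, v = sm h ρ u := ⟨_, rfl⟩
  rw [← hv] at k1 k2 hB p4 k1' hvo hm' ⊢
  obtain ⟨F, hF⟩ : ∃ F : Fin k → E k → ℝ, ∀ j, F j = fun z => fderiv ℝ v z (EuclideanSpace.single j 1) :=
    ⟨fun j z => fderiv ℝ v z (EuclideanSpace.single j 1), fun j => rfl⟩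
  have hFB : ∀ j, BL B (F j) := fun j => by
    rw [hF]
    exact hB _ (by simp)
  have hFe : ∀ j x, F j (-x) = F j x := fun j x => by
    rw [hF]
    exact Run7.h444.ER.even_dir v k1 hvo _ x
  have hsq : ∀ x, ∑ j, F j x ^ 2 = ‖fderiv ℝ v x‖ ^ 2 := by
    intro x
    rw [Pool.Agent.H888R2.KT.N8x.norm_sq_clm]
    exact Finset.sum_congr rfl fun j _ => by rw [hF]
  have e1 : Dr (mu ρ) v = ∑ j, ∫ x, F j x ^ 2 ∂(mu ρ) := by
    unfold Dr
    rw [← integral_finsetSum]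
    · exact integral_congr_ae (Filter.Eventually.of_forall fun x => (hsq x).symm)
    · intro j _
      exact int_cont hρ.lc ((hFB j).c1.continuous.pow 2)
  have e2 : ∫ x, hs v x ∂(mu ρ) = ∑ j, ∫ x, ‖fderiv ℝ (F j) x‖ ^ 2 ∂(mu ρ) := by
    rw [← integral_finsetSum]
    · refine integral_congr_ae (Filter.Eventually.of_forall fun x => ?_)
      simp only
      rw [Run7.h444.ER.hs_eq]
      exact Finset.sum_congr rfl fun j _ => by rw [hF]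
    · intro j _
      exact int_cont hρ.lc (grad_cont (hFB j).c1)
  have e3 := vec (M := L * T) (R := L ^ 2) hA hPB hE hFB hFe (by positivity) (fun x => by
    rw [hsq]
    exact pow_le_pow_left₀ (norm_nonneg _) (p4 x) 2)
  have hm2 : h * ∑ j, (∫ x, F j x ∂(mu ρ)) ^ 2 ≤ s * Dr (mu ρ) u := by
    refine le_trans (le_of_eq ?_) hm'
    congr 1
    exact Finset.sum_congr rfl fun j _ => by rw [hF]
  rw [← e1, ← e2] at e3
  obtain ⟨a, ha⟩ : ∃ a, a = Dr (mu ρ) v := ⟨_, rfl⟩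
  obtain ⟨D, hD⟩ : ∃ D, D = Dr (mu ρ) u := ⟨_, rfl⟩
  obtain ⟨H, hH⟩ : ∃ H, H = ∫ x, hs v x ∂(mu ρ) := ⟨_, rfl⟩
  obtain ⟨S, hS⟩ : ∃ S, S = ∑ j, (∫ x, F j x ∂(mu ρ)) ^ 2 := ⟨_, rfl⟩
  obtain ⟨er, her⟩ : ∃ er, er = L ^ 2 * (2 * T ^ 2 * δ + 6 / T ^ 2) := ⟨_, rfl⟩
  rw [← ha, ← hH, ← hD] at k2
  rw [← hS, ← hD] at hm2
  rw [← ha, ← hH, ← hS] at e3
  rw [← ha, ← hD, ← her]
  have er0 : 0 ≤ er := by rw [her]; positivity
  have e4 : a - S ≤ 2 * A * H + er := by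
    refine e3.trans (le_of_eq ?_)
    rw [her]
    field_simp
    ring
  -- multiply by `h`
  have e5 : h * a ≤ s * D + 2 * A * (D - a) + h * er := by
    have q1 : h * (a - S) ≤ h * (2 * A * H + er) := mul_le_mul_of_nonneg_left e4 hh.le
    have q2 : 2 * A * (h * H) ≤ 2 * A * (D - a) := mul_le_mul_of_nonneg_left (by linarith) (by positivity)
    nlinarith
  have e6 : (4 * A + 2 * s) * a ≤ (2 * A + s) * D + (4 * A + 2 * s) * er := by
    rw [hhd] at e5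
    nlinarith [mul_nonneg hA.le er0]
  have e7 : (4 * A + 2 * s) * a ≤ (4 * A + 2 * s) * (1 / 2 * D + er) := by linarith
  exact le_of_mul_le_mul_left e7 (by positivity)

end Run7.h444.SC
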