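import Pool.Agent.Run7.h444.SC.D
import Pool.Agent.N483.KM.F2F

/-!
# Concentration of symmetric sets: reduction of the concentration radius (helper444)
-/

set_option autoImplicit false

namespace Run7.h444.SC

open MeasureTheory Set Filter Topology
open scoped ENNReal InnerProductSpace
open Pool.Agent.H212R2.KLS (mu Bdd)
open Pool.Agent.H888R2.KT (LC gs pst gc hs gs_deriv pst_smooth)
open Pool.Agent.H888R2.KT.N9x (W W_le W_eq int_cont mass_pos grad_cont)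
open Pool.Agent.R754.KG (E un)
open Pool.Agent.R755.KF (BL PB)
open Pool.Agent.N483.KM (po LCI CR)

variable {k : ℕ} {ρ : E k → ℝ}

theorem Dr_le (hρ : SB ρ) {L : ℝ} {u : E k → ℝ} (hu : ContDiff ℝ 1 u)
    (hLu : ∀ x, ‖fderiv ℝ u x‖ ≤ L) : Dr (mu ρ) u ≤ L ^ 2 := by
  have := hρ.prob
  unfold Dr
  have h1 : ∫ x, ‖fderiv ℝ u x‖ ^ 2 ∂(mu ρ) ≤ ∫ _x, L ^ 2 ∂(mu ρ) :=
    integral_mono (int_cont hρ.lc (grad_cont hu)) (integrable_const _) fun x =>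
      pow_le_pow_left₀ (norm_nonneg _) (hLu x) 2
  simpa using h1

/-- iteration -/
theorem odd_iter (hρ : SB ρ) {A δ s T L C0 : ℝ} (hA : 0 < A) (hs0 : 0 ≤ s)
    (hcov : ∀ w : E k, ∫ x, ⟪x, w⟫_ℝ ^ 2 ∂(mu ρ) ≤ s * ‖w‖ ^ 2)
    (hδ : 0 ≤ δ) (hE : EvW A δ (mu ρ)) (hT : 0 < T) (hL : 0 < L) {u : E k → ℝ} (hu : BL C0 u)
    (h1 : ∀ x, |u x| ≤ 1) (hLu : ∀ x, ‖fderiv ℝ u x‖ ≤ L) (hodd : ∀ x, u (-x) = -u x) (m : ℕ) :
    ∃ (v : E k → ℝ) (C1 : ℝ), BL C1 v ∧ (∀ x, |v x| ≤ 1) ∧ (∀ x, ‖fderiv ℝ v x‖ ≤ L) ∧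
      (∀ x, v (-x) = -v x) ∧
      Dr (mu ρ) v ≤ (1 / 2) ^ m * L ^ 2 + 2 * (L ^ 2 * (2 * T ^ 2 * δ + 6 / T ^ 2)) ∧
      Vr (mu ρ) u ≤ Vr (mu ρ) v + 2 * (2 * A + 2 * s) * m * L ^ 2 := by
  induction m with
  | zero =>
    refine ⟨u, C0, hu, h1, hLu, hodd, ?_, by simp⟩
    have h2 := Dr_le hρ hu.c1 hLu
    have h3 : 0 ≤ L ^ 2 * (2 * T ^ 2 * δ + 6 / T ^ 2) := by positivity
    rw [pow_zero, one_mul]
    linarith
  | succ m ih =>
    obtain ⟨v, C1, hv, v1, vL, vo, vD, vV⟩ := ih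
    obtain ⟨h, hhd⟩ : ∃ h, h = 2 * A + 2 * s := ⟨_, rfl⟩
    have hh : 0 < h := by rw [hhd]; positivity
    obtain ⟨p1, p2, -, p4⟩ := sm_props hρ hh one_pos hv v1 hL.le vL
    have q1 := odd_step hρ hA hs0 hcov hδ hE hT hL hv v1 vL vo
    have q2 := sm_step hρ hh hv.c1
    have q3 := Dr_le hρ hv.c1 vL
    rw [← hhd] at q1 vV ⊢
    refine ⟨sm h ρ v, _, p1, p2, p4, sm_odd hρ h vo, ?_, ?_⟩
    · rw [pow_succ]
      linarith
    · have q4 : 2 * h * Dr (mu ρ) v ≤ 2 * h * L ^ 2 := mul_le_mul_of_nonneg_left q3 (by positivity)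
      push_cast
      linarith

/-- even and odd parts -/
theorem parts (hρ : SB ρ) {L : ℝ} {f : E k → ℝ} (hf : ContDiff ℝ 1 f)
    (h1 : ∀ x, |f x| ≤ 1) (hL : ∀ x, ‖fderiv ℝ f x‖ ≤ L) :
    ∃ e o : E k → ℝ, ContDiff ℝ 1 e ∧ ContDiff ℝ 1 o ∧ (∀ x, |e x| ≤ 1) ∧ (∀ x, |o x| ≤ 1) ∧
      (∀ x, ‖fderiv ℝ e x‖ ≤ L) ∧ (∀ x, ‖fderiv ℝ o x‖ ≤ L) ∧ (∀ x, e (-x) = e x) ∧
      (∀ x, o (-x) = -o x) ∧ Vr (mu ρ) f = Vr (mu ρ) e + Vr (mu ρ) o := by
  have hg : ContDiff ℝ 1 (fun y => f (-y)) := hf.comp contDiff_neg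
  have hfe : ContDiff ℝ 1 (fun y => (f y + f (-y)) / 2) := (hf.add hg).div_const 2
  have hfo : ContDiff ℝ 1 (fun y => (f y - f (-y)) / 2) := (hf.sub hg).div_const 2
  have d1 : ∀ x, HasFDerivAt f (fderiv ℝ f x) x := fun x =>
    (hf.differentiable (by norm_num) x).hasFDerivAt
  have d3 : ∀ x, fderiv ℝ (fun y => (f y + f (-y)) / 2) x =
      (2 : ℝ)⁻¹ • (fderiv ℝ f x + -fderiv ℝ f (-x)) := by
    intro x
    refine HasFDerivAt.fderiv ?_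
    have := ((d1 x).add (Run7.h444.ER.fderiv_neg_comp hf x)).const_smul (2 : ℝ)⁻¹
    refine this.congr_of_eventuallyEq (Filter.Eventually.of_forall fun y => ?_)
    simp only [Pi.smul_apply, Pi.add_apply, smul_eq_mul]
    ring
  have d4 : ∀ x, fderiv ℝ (fun y => (f y - f (-y)) / 2) x =
      (2 : ℝ)⁻¹ • (fderiv ℝ f x - -fderiv ℝ f (-x)) := by
    intro x
    refine HasFDerivAt.fderiv ?_
    have := ((d1 x).sub (Run7.h444.ER.fderiv_neg_comp hf x)).const_smul (2 : ℝ)⁻¹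
    refine this.congr_of_eventuallyEq (Filter.Eventually.of_forall fun y => ?_)
    simp only [Pi.smul_apply, Pi.sub_apply, smul_eq_mul]
    ring
  have hn2 : ‖(2 : ℝ)⁻¹‖ = 1 / 2 := by rw [Real.norm_eq_abs, abs_of_pos (by norm_num)]; norm_num
  refine ⟨fun y => (f y + f (-y)) / 2, fun y => (f y - f (-y)) / 2, hfe, hfo, fun x => ?_,
    fun x => ?_, fun x => ?_, fun x => ?_, fun x => ?_, fun x => ?_, ?_⟩
  · have a1 := abs_le.1 (h1 x)
    have a2 := abs_le.1 (h1 (-x))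
    rw [abs_le]
    constructor <;> linarith
  · have a1 := abs_le.1 (h1 x)
    have a2 := abs_le.1 (h1 (-x))
    rw [abs_le]
    constructor <;> linarith
  · rw [d3, norm_smul, hn2]
    have := norm_add_le (fderiv ℝ f x) (-fderiv ℝ f (-x))
    rw [norm_neg] at this
    linarith [hL x, hL (-x)]
  · rw [d4, norm_smul, hn2]
    have := norm_sub_le (fderiv ℝ f x) (-fderiv ℝ f (-x))
    rw [norm_neg] at this
    linarith [hL x, hL (-x)]
  · simp only [neg_neg]; ring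
  · simp only [neg_neg]; ring
  · have i1 : Integrable (fun x => ((f x + f (-x)) / 2) ^ 2) (mu ρ) :=
      int_cont hρ.lc (hfe.continuous.pow 2)
    have i2 : Integrable (fun x => ((f x - f (-x)) / 2) ^ 2) (mu ρ) :=
      int_cont hρ.lc (hfo.continuous.pow 2)
    have i3 : Integrable (fun x => f x ^ 2) (mu ρ) := int_cont hρ.lc (hf.continuous.pow 2)
    have i4 : Integrable (fun x => f (-x) ^ 2) (mu ρ) := int_cont hρ.lc (hg.continuous.pow 2)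
    have i5 : Integrable f (mu ρ) := int_cont hρ.lc hf.continuous
    have i6 : Integrable (fun x => f (-x)) (mu ρ) := int_cont hρ.lc hg.continuous
    have k1 := int_neg hρ (fun x => f x ^ 2)
    have k2 := int_neg hρ f
    have e2 : ∫ x, (f x ^ 2 + f (-x) ^ 2) ∂(mu ρ) =
        ∫ x, 2 * (((f x + f (-x)) / 2) ^ 2 + ((f x - f (-x)) / 2) ^ 2) ∂(mu ρ) := by
      congr 1
      funext x
      ring
    rw [integral_add i3 i4, integral_const_mul, integral_add i1 i2] at e2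
    have e3 : ∫ x, (f x + f (-x)) / 2 ∂(mu ρ) = ∫ x, f x ∂(mu ρ) := by
      rw [integral_div, integral_add i5 i6, k2]
      ring
    have e4 : ∫ x, (f x - f (-x)) / 2 ∂(mu ρ) = 0 := by
      rw [integral_div, integral_sub i5 i6, k2]
      ring
    unfold Vr
    rw [e3, e4]
    linarith

/-- **the concentration radius decreases** -/
theorem red (p0 CW : ℝ) (hp0 : 0 < p0) (hCW : 0 < CW)
    (HW : ∀ (k : ℕ) (ν : Measure (E k)) (r M C0 : ℝ) (f : E k → ℝ), LCI ν → 0 < r → CR ν p0 r →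
      1 ≤ M → BL C0 f → (∀ y, |f y| ≤ 1) → (∫ x, f x ^ 2 ∂ν) - (∫ x, f x ∂ν) ^ 2 ≤
        CW / (M * Real.sqrt M) + M * r ^ 2 / 64 * ∫ x, ‖fderiv ℝ f x‖ ^ 2 ∂ν) :
    ∃ p Cs : ℝ, 0 < p ∧ 0 < Cs ∧
    ∀ (k : ℕ) (ρ : E k → ℝ), SB ρ → ∀ r s R : ℝ, 0 < r → 0 ≤ s → 0 < R →
    (∀ w : E k, ∫ x, ⟪x, w⟫_ℝ ^ 2 ∂(mu ρ) ≤ s * ‖w‖ ^ 2) → SymC (mu ρ) p r →
    Cs * (r ^ 2 + s) ≤ R ^ 2 → CR (mu ρ) p0 R → CR (mu ρ) p0 (R / 2) := by
  obtain ⟨c, hc, HT⟩ := Pool.Agent.N483.KM.trf_self Pool.Agent.N483.KM.trfR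
    Pool.Agent.N483.KM.lciR p0 hp0
  obtain ⟨M, hM⟩ : ∃ M, M = max 1 (16 * CW / c) := ⟨_, rfl⟩
  have hM1 : 1 ≤ M := by rw [hM]; exact le_max_left _ _
  have hM2 : 16 * CW / c ≤ M := by rw [hM]; exact le_max_right _ _
  have hM0 : 0 < M := by linarith
  have hMs : CW / (M * Real.sqrt M) ≤ c / 16 := by
    have h1 : 1 ≤ Real.sqrt M := by
      rw [Real.one_le_sqrt]
      exact hM1
    rw [div_le_iff₀ (by positivity)]
    rw [div_le_iff₀ hc] at hM2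
    have h2 : M ≤ M * Real.sqrt M := le_mul_of_one_le_right hM0.le h1
    nlinarith [mul_le_mul_of_nonneg_left h2 hc.le]
  obtain ⟨m, hm⟩ : ∃ m : ℕ, (1 / 2 : ℝ) ^ m < c / (64 * M) :=
    exists_pow_lt_of_lt_one (by positivity) (by norm_num)
  obtain ⟨T2, hT2⟩ : ∃ T2, T2 = 768 * M / c := ⟨_, rfl⟩
  have hT20 : 0 < T2 := by rw [hT2]; positivity
  obtain ⟨T, hTd⟩ : ∃ T, T = Real.sqrt T2 := ⟨_, rfl⟩
  have hT : 0 < T := by rw [hTd]; exact Real.sqrt_pos.2 hT20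
  have hTT : T ^ 2 = T2 := by rw [hTd, Real.sq_sqrt hT20.le]
  obtain ⟨δ, hδd⟩ : ∃ δ, δ = c / (256 * M * T2) := ⟨_, rfl⟩
  have hδ : 0 < δ := by rw [hδd]; positivity
  obtain ⟨p, hp⟩ : ∃ p, p = min (δ / 16) (c / 128) := ⟨_, rfl⟩
  have hp1 : p ≤ δ / 16 := by rw [hp]; exact min_le_left _ _
  have hp2 : p ≤ c / 128 := by rw [hp]; exact min_le_right _ _
  have hpp : 0 < p := by rw [hp]; exact lt_min (by positivity) (by positivity)
  obtain ⟨Cs, hCs⟩ : ∃ Cs, Cs = 1024 / c + 2048 * (m + 1) / c * (8 / δ + 2) := ⟨_, rfl⟩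
  have hCs0 : 0 < Cs := by rw [hCs]; positivity
  refine ⟨p, Cs, hpp, hCs0, fun k ρ hρ r s R hr hs hR hcov hS hRR hCR => ?_⟩
  by_contra hn
  obtain ⟨F, hF, hF1, hFL, hF2⟩ := HT k (R / 2) (mu ρ) hρ.lci (by positivity) hn
  obtain ⟨L, hLd⟩ : ∃ L, L = 8 / R := ⟨_, rfl⟩
  have hL : 0 < L := by rw [hLd]; positivity
  have hFL' : ∀ y, ‖fderiv ℝ F y‖ ≤ L := fun y => (hFL y).trans (le_of_eq (by
    rw [hLd]; field_simp; norm_num))
  have hLR : L ^ 2 * R ^ 2 = 64 := by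
    rw [hLd]; field_simp; norm_num
  obtain ⟨e, o, he, ho, he1, ho1, heL, hoL, hee, hoo, hV⟩ := parts hρ hF hF1 hFL'
  have hF2' : c ≤ Vr (mu ρ) F := hF2
  -- the even part
  have v1 := even_lip hρ hr hpp.le hS hL.le he he1 heL hee
  have b1 : r ^ 2 + s ≤ R ^ 2 / Cs := by
    rw [le_div_iff₀ hCs0]
    linarith
  have b2 : L ^ 2 * (r ^ 2 + s) ≤ 64 / Cs := by
    have := mul_le_mul_of_nonneg_left b1 (sq_nonneg L)
    calc L ^ 2 * (r ^ 2 + s) ≤ L ^ 2 * (R ^ 2 / Cs) := this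
      _ = L ^ 2 * R ^ 2 / Cs := by ring
      _ = 64 / Cs := by rw [hLR]
  have hCs1 : 1024 / c ≤ Cs := by
    rw [hCs]
    have : 0 ≤ 2048 * ((m : ℝ) + 1) / c * (8 / δ + 2) := by positivity
    linarith
  have hCs2 : 2048 * ((m : ℝ) + 1) / c * (8 / δ + 2) ≤ Cs := by
    rw [hCs]
    have : 0 ≤ 1024 / c := by positivity
    linarith
  have b3 : (L * r) ^ 2 ≤ c / 16 := by
    have h1 : L ^ 2 * r ^ 2 ≤ 64 / Cs := by
      nlinarith [mul_nonneg (sq_nonneg L) hs]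
    have h2 : 64 / Cs ≤ c / 16 := by
      rw [div_le_iff₀ hCs0]
      have := mul_le_mul_of_nonneg_left hCs1 (by positivity : 0 ≤ c / 16)
      have e1 : c / 16 * (1024 / c) = 64 := by field_simp; norm_num
      linarith
    rw [mul_pow]
    linarith
  -- the weak Poincare inequality for even functions
  obtain ⟨A, hAd⟩ : ∃ A, A = 4 * r ^ 2 / δ := ⟨_, rfl⟩
  have hA : 0 < A := by rw [hAd]; positivity
  have hE : EvW A δ (mu ρ) := by
    intro C f hf hf1 hfe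
    have h1 := even_weak hρ hr hpp.le hS (h := 2 * r ^ 2 / δ) (by positivity) hf hf1 hfe
    have e1 : r ^ 2 / (2 * r ^ 2 / δ) = δ / 2 := by field_simp
    have e2 : 2 * (2 * r ^ 2 / δ) = A := by rw [hAd]; ring
    rw [e1, e2] at h1
    have h2 : Vr (mu ρ) f ≤ δ + A * Dr (mu ρ) f := by linarith
    exact h2
  have hoB : BL (max 1 L) o := ⟨ho, fun y => (ho1 y).trans (le_max_left _ _),
    fun y => (hoL y).trans (le_max_right _ _)⟩
  obtain ⟨v, C1, hv, w1, vL, vo, vD, vV⟩ := odd_iter hρ hA hs hcov hδ.le hE hT hL hoB ho1 hoL hoo m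
  have hw : Vr (mu ρ) v ≤ CW / (M * Real.sqrt M) + M * R ^ 2 / 64 * Dr (mu ρ) v :=
    HW k (mu ρ) R M C1 v hρ.lci hR hCR hM1 hv w1
  rw [hTT] at vD
  have d1 : M * R ^ 2 / 64 * Dr (mu ρ) v ≤ c / 16 := by
    have h1 := mul_le_mul_of_nonneg_left vD (by positivity : 0 ≤ M * R ^ 2 / 64)
    have e1 : M * R ^ 2 / 64 * ((1 / 2) ^ m * L ^ 2 + 2 * (L ^ 2 * (2 * T2 * δ + 6 / T2))) =
        M * (L ^ 2 * R ^ 2) / 64 * ((1 / 2) ^ m + 2 * (2 * T2 * δ + 6 / T2)) := by ring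
    rw [e1, hLR] at h1
    have e2 : 2 * (2 * T2 * δ + 6 / T2) = c / (32 * M) := by
      rw [hδd, hT2]
      field_simp
      norm_num
    rw [e2] at h1
    have e3 : M * 64 / 64 * (c / (64 * M) + c / (32 * M)) = 3 * c / 64 := by
      field_simp
      norm_num
    have h2 : M * 64 / 64 * ((1 / 2) ^ m + c / (32 * M)) ≤ M * 64 / 64 * (c / (64 * M) + c / (32 * M)) :=
      mul_le_mul_of_nonneg_left (by linarith) (by positivity)
    linarith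
  have d2 : 2 * (2 * A + 2 * s) * m * L ^ 2 ≤ c / 16 := by
    have h1 : 2 * A + 2 * s ≤ (8 / δ + 2) * (r ^ 2 + s) := by
      rw [hAd]
      have h2 : 0 ≤ 8 / δ * s := by positivity
      have h3 : 2 * (4 * r ^ 2 / δ) = 8 / δ * r ^ 2 := by ring
      rw [h3]
      nlinarith [sq_nonneg r]
    have h4 : 2 * (2 * A + 2 * s) * m * L ^ 2 ≤ 2 * m * (8 / δ + 2) * (L ^ 2 * (r ^ 2 + s)) := by
      have h5 : 0 ≤ 2 * (m : ℝ) * L ^ 2 := by positivity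
      have := mul_le_mul_of_nonneg_left h1 h5
      linarith
    have h6 : 2 * m * (8 / δ + 2) * (L ^ 2 * (r ^ 2 + s)) ≤ 2 * m * (8 / δ + 2) * (64 / Cs) :=
      mul_le_mul_of_nonneg_left b2 (by positivity)
    have h7 : 2 * m * (8 / δ + 2) * (64 / Cs) ≤ c / 16 := by
      have e1 : 2 * m * (8 / δ + 2) * (64 / Cs) = 128 * m * (8 / δ + 2) / Cs := by ring
      rw [e1, div_le_iff₀ hCs0]
      have h8 := mul_le_mul_of_nonneg_left hCs2 (by positivity : 0 ≤ c / 16)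
      have e2 : c / 16 * (2048 * ((m : ℝ) + 1) / c * (8 / δ + 2)) =
          128 * (m + 1) * (8 / δ + 2) := by
        field_simp
        ring
      have h9 : 128 * (m : ℝ) * (8 / δ + 2) ≤ 128 * (m + 1) * (8 / δ + 2) :=
        mul_le_mul_of_nonneg_right (by linarith) (by positivity)
      linarith
    linarith
  rw [hV] at hF2'
  linarith

end Run7.h444.SC
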