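import Pool.Agent.Run7.h444.SC.F

/-!
# Concentration of symmetric sets: weak Poincare inequality for all functions (helper444)
-/

set_option autoImplicit false

namespace Run7.h444.SC

open MeasureTheory Set Filter Topology Metric
open scoped ENNReal InnerProductSpace
open Pool.Agent.H212R2.KLS (mu Bdd)
open Pool.Agent.H888R2.KT (LC)
open Pool.Agent.R754.KG (E un)
open Pool.Agent.R755.KF (BL PB)
open Pool.Agent.N483.KM (po LCI CR)

variable {k : ℕ} {ρ : E k → ℝ}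

theorem cr_mono {ν : Measure (E k)} [IsFiniteMeasure ν] {p R R' : ℝ} (h : R ≤ R')
    (H : CR ν p R) : CR ν p R' := by
  intro B hB hp
  exact (H B hB hp).trans_le (measureReal_mono (thickening_mono h B))

theorem cr_init {ν : Measure (E k)} {p B0 R : ℝ} (hν : PB B0 ν) (hp : 0 < p) (hR : 2 * B0 < R) :
    CR ν p R := by
  have := hν.prob
  intro B hB hpB
  have h1 : 0 < ν.real B := hp.trans_le hpB
  have h2 : ν B ≠ 0 := by
    intro h
    rw [measureReal_def, h] at h1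
    simp at h1
  have hae : ∀ᵐ x ∂ν, ‖x‖ ≤ B0 := hν.bdd
  obtain ⟨x, hxB, hx⟩ : ∃ x ∈ B, ‖x‖ ≤ B0 := by
    by_contra hn
    push Not at hn
    refine h2 (measure_mono_null (fun x hx => ?_) hae)
    exact not_le.2 (hn x hx)
  have h3 : ν (thickening R B)ᶜ = 0 := by
    refine measure_mono_null (fun y hy => ?_) hae
    show ¬ ‖y‖ ≤ B0
    intro hy2
    refine hy (mem_thickening_iff.2 ⟨x, hxB, ?_⟩)
    rw [dist_eq_norm]
    have := norm_sub_le y x
    linarith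
  have h4 := measureReal_add_measureReal_compl (μ := ν)
    (isOpen_thickening (δ := R) (E := B)).measurableSet
  rw [measureReal_def (s := (thickening R B)ᶜ), h3] at h4
  simp only [probReal_univ, ENNReal.toReal_zero, add_zero] at h4
  rw [h4]
  norm_num

/-- **weak Poincare inequality** -/
theorem weak : ∃ p Ca : ℝ, 0 < p ∧ 0 < Ca ∧ ∀ (k : ℕ) (ρ : E k → ℝ), SB ρ →
    ∀ r s : ℝ, 0 < r → 0 ≤ s → (∀ w : E k, ∫ x, ⟪x, w⟫_ℝ ^ 2 ∂(mu ρ) ≤ s * ‖w‖ ^ 2) →
    SymC (mu ρ) p r → ∀ (C0 : ℝ) (f : E k → ℝ), BL C0 f → (∀ y, |f y| ≤ 1) →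
    Vr (mu ρ) f ≤ 1 / 100 + Ca * (r ^ 2 + s) * Dr (mu ρ) f := by
  obtain ⟨p0, CW, hp0, hp4, hCW, HW⟩ := Pool.Agent.N483.KM.wpmR
  obtain ⟨p, Cs, hp, hCs, HR⟩ := red p0 CW hp0 hCW HW
  obtain ⟨M, hM⟩ : ∃ M, M = max 1 (100 * CW) := ⟨_, rfl⟩
  have hM1 : 1 ≤ M := by rw [hM]; exact le_max_left _ _
  have hM2 : 100 * CW ≤ M := by rw [hM]; exact le_max_right _ _
  have hM0 : 0 < M := by linarith
  have hMs : CW / (M * Real.sqrt M) ≤ 1 / 100 := by
    have h1 : 1 ≤ Real.sqrt M := by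
      rw [Real.one_le_sqrt]
      exact hM1
    rw [div_le_iff₀ (by positivity)]
    have h2 : M ≤ M * Real.sqrt M := le_mul_of_one_le_right hM0.le h1
    linarith
  refine ⟨p, M / 64 * Cs, hp, by positivity, fun k ρ hρ r s hr hs hcov hS C0 f hf hf1 => ?_⟩
  obtain ⟨B0, hB0, hPB⟩ := hρ.pb
  have hprob := hPB.prob
  obtain ⟨Rm, hRm⟩ : ∃ Rm, Rm = Real.sqrt (Cs * (r ^ 2 + s)) := ⟨_, rfl⟩
  have hRm0 : 0 < Rm := by rw [hRm]; exact Real.sqrt_pos.2 (by positivity)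
  have hRm2 : Rm ^ 2 = Cs * (r ^ 2 + s) := by rw [hRm, Real.sq_sqrt (by positivity)]
  obtain ⟨R0, hR0⟩ : ∃ R0, R0 = 2 * B0 + 1 := ⟨_, rfl⟩
  have hR0p : 0 < R0 := by rw [hR0]; positivity
  have hind : ∀ j : ℕ, CR (mu ρ) p0 (max (R0 * (1 / 2) ^ j) Rm) := by
    intro j
    induction j with
    | zero =>
      refine cr_mono (le_max_left _ _) (cr_init hPB hp0 ?_)
      rw [hR0]
      linarith
    | succ j ih =>
      have h1 : Rm ^ 2 ≤ (max (R0 * (1 / 2) ^ j) Rm) ^ 2 :=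
        pow_le_pow_left₀ hRm0.le (le_max_right _ _) 2
      rw [hRm2] at h1
      have h2 := HR k ρ hρ r s _ hr hs (lt_max_of_lt_right hRm0) hcov hS h1 ih
      refine cr_mono ?_ h2
      rw [pow_succ]
      rcases le_total (R0 * (1 / 2) ^ j) Rm with h | h
      · rw [max_eq_right h]
        exact (by linarith : Rm / 2 ≤ Rm).trans (le_max_right _ _)
      · rw [max_eq_left h]
        refine le_trans (le_of_eq ?_) (le_max_left _ _)
        ring
  obtain ⟨j, hj⟩ : ∃ j : ℕ, (1 / 2 : ℝ) ^ j < Rm / R0 :=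
    exists_pow_lt_of_lt_one (by positivity) (by norm_num)
  have hCR : CR (mu ρ) p0 Rm := by
    have h1 := hind j
    have h2 : R0 * (1 / 2) ^ j ≤ Rm := by
      rw [lt_div_iff₀ hR0p] at hj
      linarith
    rwa [max_eq_right h2] at h1
  have h1 := HW k (mu ρ) Rm M C0 f hρ.lci hRm0 hCR hM1 hf hf1
  rw [hRm2] at h1
  have h2 : Vr (mu ρ) f ≤ CW / (M * Real.sqrt M) + M * (Cs * (r ^ 2 + s)) / 64 * Dr (mu ρ) f := h1
  have e : M / 64 * Cs * (r ^ 2 + s) * Dr (mu ρ) f =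
    M * (Cs * (r ^ 2 + s)) / 64 * Dr (mu ρ) f := by ring
  rw [e]
  linarith

end Run7.h444.SC
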