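import Pool.Agent.Run7.h444.SC.G
import Pool.Agent.W695.KH.Mink2

/-!
# Concentration of symmetric sets: isoperimetry (helper444)
-/

set_option autoImplicit false

namespace Run7.h444.SC

open MeasureTheory Set Filter Topology
open scoped ENNReal InnerProductSpace
open Pool.Agent.W695.KH (Eu EU EV VV Sm Pot Uu WPo)
open Pool.Agent.W12.KH (wt wt_cont wt_pos wt_int tend EU_eq)
open Pool.Agent.W880.KH (EU_sub_sq)
open Run7.h444.ER (wt_one VV_nonneg)

variable {κ : Type} [Fintype κ]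

/-- transfer of the weak Poincare inequality to the approximating densities -/
theorem wpo (D : Set (Eu κ)) (hD : IsCompact D) (hconv : Convex ℝ D) (hvol : 0 < volume D)
    (C : ℝ) (hC : 0 < C)
    (hP : ∀ (v : Eu κ → ℝ) (L : ℝ), ContDiff ℝ 1 v → (∀ x, |v x| ≤ 1) →
      (∀ x, ‖fderiv ℝ v x‖ ≤ L) → VV D v ≤ 1 / 100 + C * EV D fun x => ‖fderiv ℝ v x‖ ^ 2) :
    ∀ᶠ A in atTop, WPo (Uu D A) (1 / 25) (1 / (50 * C)) := by
  have hne : D.Nonempty := by
    rw [nonempty_iff_ne_empty]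
    intro h
    rw [h, measure_empty] at hvol
    exact lt_irrefl _ hvol
  have hfin : volume D ≠ ⊤ := hD.measure_lt_top.ne
  obtain ⟨V, hV⟩ : ∃ V, V = (volume D).toReal := ⟨_, rfl⟩
  have hpos : 0 < V := by rw [hV]; exact ENNReal.toReal_pos hvol.ne' hfin
  have h2 := tend (κ := κ) hD hne (g := fun _ => 1) (B := 1) continuous_const
        (fun x => by rw [abs_one, one_mul]; nlinarith [sq_nonneg ‖x‖])
  have h3 : (∫ _x in D, (1 : ℝ)) = V := by
    rw [hV]
    simp [Measure.real]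
  rw [h3] at h2
  have hq : Tendsto (fun A : ℝ => V / ∫ x, (1 : ℝ) * wt D A x) atTop (𝓝 (V / V)) :=
    tendsto_const_nhds.div h2 hpos.ne'
  rw [div_self hpos.ne'] at hq
  have hq1 := hq.eventually_const_lt (show (1 - 1 / 400 : ℝ) < 1 by norm_num)
  filter_upwards [hq1, eventually_gt_atTop (0 : ℝ)] with A hA3 hA v L hv hb hL hvar
  simp only [one_mul] at hA3
  obtain ⟨Z, hZ⟩ : ∃ Z, Z = ∫ x, wt D A x := ⟨_, rfl⟩
  rw [← hZ] at hA3
  have hvc := hv.continuous
  have hgc : Continuous fun x => ‖fderiv ℝ v x‖ ^ 2 :=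
    ((hv.continuous_fderiv (by norm_num)).norm).pow 2
  have hi1 : Integrable fun x => wt D A x := by
    have := wt_int (κ := κ) hD hne hA (g := fun _ => 1) (B := 1) continuous_const
        (fun x => by rw [abs_one, one_mul]; nlinarith [sq_nonneg ‖x‖])
    simpa using this
  have hZ0 : 0 < Z := by
    by_contra hn
    have : V / Z ≤ 0 := div_nonpos_of_nonneg_of_nonpos hpos.le (not_lt.1 hn)
    linarith
  have hone : EU (Uu D A) (fun _ => 1) = 1 :=
    (Pool.Agent.W695.KH.proj κ D hD hconv hne A hA).2.1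
  obtain ⟨c, hc⟩ : ∃ c, c = EV D v := ⟨_, rfl⟩
  have hc1 : |c| ≤ 1 := by
    rw [hc]
    unfold EV
    rw [abs_div, abs_of_pos (by rw [← hV]; exact hpos : 0 < (volume D).toReal),
      div_le_one (by rw [← hV]; exact hpos)]
    have := norm_setIntegral_le_of_norm_le_const (μ := volume) (s := D) (f := v) (C := 1)
      hD.measure_lt_top (fun x _ => by rw [Real.norm_eq_abs]; exact hb x)
    rw [one_mul] at this
    exact this
  have hcb : ∀ x, (v x - c) ^ 2 ≤ 4 := by
    intro x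
    have h1 := abs_le.1 (hb x)
    have h2 := abs_le.1 hc1
    nlinarith
  have hVar1 : EU (Uu D A) (fun x => v x ^ 2) - EU (Uu D A) v ^ 2 ≤
      EU (Uu D A) fun x => (v x - c) ^ 2 := by
    rw [EU_sub_sq _ hone v hvc 1 hb c]
    nlinarith [sq_nonneg (EU (Uu D A) v - c)]
  have hi2 : Integrable fun x => (v x - c) ^ 2 * wt D A x := by
    refine wt_int (κ := κ) hD hne hA (g := fun x => (v x - c) ^ 2) (B := 4) (by fun_prop)
      (fun x => ?_)
    rw [abs_of_nonneg (sq_nonneg _)]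
    nlinarith [hcb x, sq_nonneg ‖x‖]
  have hi3 : Integrable fun x => ‖fderiv ℝ v x‖ ^ 2 * wt D A x := by
    refine wt_int (κ := κ) hD hne hA (g := fun x => ‖fderiv ℝ v x‖ ^ 2) (B := L ^ 2) hgc
      (fun x => ?_)
    rw [abs_of_nonneg (sq_nonneg _)]
    have h1 := pow_le_pow_left₀ (norm_nonneg _) (hL x) 2
    nlinarith [sq_nonneg ‖x‖, sq_nonneg L, mul_nonneg (sq_nonneg L) (sq_nonneg ‖x‖)]
  have hind1 : Integrable (D.indicator fun x => (v x - c) ^ 2) := by
    rw [integrable_indicator_iff hD.measurableSet]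
    exact (by fun_prop : Continuous fun x => (v x - c) ^ 2).continuousOn.integrableOn_compact hD
  have hind2 : Integrable (D.indicator fun _ : Eu κ => (1 : ℝ)) := by
    rw [integrable_indicator_iff hD.measurableSet]
    exact (continuous_const (y := (1 : ℝ))).continuousOn.integrableOn_compact hD
  have hind3 : Integrable (D.indicator fun x => ‖fderiv ℝ v x‖ ^ 2) := by
    rw [integrable_indicator_iff hD.measurableSet]
    exact hgc.continuousOn.integrableOn_compact hD
  have hVZ : V ≤ Z := by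
    rw [← h3, hZ, ← integral_indicator hD.measurableSet]
    refine integral_mono hind2 hi1 fun x => ?_
    by_cases hx : x ∈ D
    · simp only [indicator_of_mem hx, wt_one hx]
      exact le_rfl
    · simp only [indicator_of_notMem hx]
      exact (wt_pos D A x).le
  have hVar2 : ∫ x, (v x - c) ^ 2 * wt D A x ≤ (∫ x in D, (v x - c) ^ 2) + 4 * (Z - V) := by
    have h1 : ∫ x, (v x - c) ^ 2 * wt D A x ≤ ∫ x, (D.indicator (fun x => (v x - c) ^ 2) x +
        4 * (wt D A x - D.indicator (fun _ => (1 : ℝ)) x)) := by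
      refine integral_mono hi2 (hind1.add ((hi1.sub hind2).const_mul 4)) fun x => ?_
      by_cases hx : x ∈ D
      · simp only [indicator_of_mem hx, wt_one hx]
        linarith
      · simp only [indicator_of_notMem hx]
        nlinarith [hcb x, wt_pos D A x]
    have h4 : ∫ x, 4 * (wt D A x - D.indicator (fun _ => (1 : ℝ)) x) = 4 * (Z - V) := by
      rw [integral_const_mul, integral_sub hi1 hind2, integral_indicator hD.measurableSet, h3, hZ]
    have h5 : ∫ x, (D.indicator (fun x => (v x - c) ^ 2) x +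
        4 * (wt D A x - D.indicator (fun _ => (1 : ℝ)) x)) =
        (∫ x, D.indicator (fun x => (v x - c) ^ 2) x) +
          ∫ x, 4 * (wt D A x - D.indicator (fun _ => (1 : ℝ)) x) :=
      integral_add hind1 ((hi1.sub hind2).const_mul 4)
    rw [h5, h4, integral_indicator hD.measurableSet] at h1
    exact h1
  have hE2 : ∫ x in D, ‖fderiv ℝ v x‖ ^ 2 ≤ ∫ x, ‖fderiv ℝ v x‖ ^ 2 * wt D A x := by
    rw [← integral_indicator hD.measurableSet]
    refine integral_mono hind3 hi3 fun x => ?_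
    by_cases hx : x ∈ D
    · simp only [indicator_of_mem hx, wt_one hx, mul_one]
      exact le_rfl
    · simp only [indicator_of_notMem hx]
      exact mul_nonneg (sq_nonneg _) (wt_pos D A x).le
  rw [EU_eq hD hne hA, ← hZ] at hVar1 ⊢
  rw [EU_eq hD hne hA, EU_eq hD hne hA, ← hZ] at hvar
  rw [EU_eq hD hne hA, EU_eq hD hne hA, ← hZ] at hVar1
  have hVV := hP v L hv hb hL
  rw [VV_nonneg hD hvol hvc, ← hc] at hVV
  unfold EV at hVV
  rw [← hV] at hVV
  obtain ⟨I1, hI1⟩ : ∃ I, I = ∫ x in D, (v x - c) ^ 2 := ⟨_, rfl⟩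
  obtain ⟨I2, hI2⟩ : ∃ I, I = ∫ x in D, ‖fderiv ℝ v x‖ ^ 2 := ⟨_, rfl⟩
  rw [← hI1] at hVar2 hVV
  rw [← hI2] at hE2 hVV
  have h6 : 1 / 25 ≤ (I1 + 4 * (Z - V)) / Z :=
    (hvar.trans hVar1).trans (div_le_div_of_nonneg_right hVar2 hZ0.le)
  have h7 : (I1 + 4 * (Z - V)) / Z = V / Z * (I1 / V) + 4 * (1 - V / Z) := by
    field_simp
  rw [h7] at h6
  have h9 : I2 / Z ≤ (∫ x, ‖fderiv ℝ v x‖ ^ 2 * wt D A x) / Z :=
    div_le_div_of_nonneg_right hE2 hZ0.le
  refine le_trans ?_ h9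
  have h10 : I2 / Z = V / Z * (I2 / V) := by
    field_simp
  have hq0 : 0 ≤ V / Z := by positivity
  have hq2 : V / Z ≤ 1 := by
    rw [div_le_one hZ0]
    exact hVZ
  have h11 : V / Z * (I1 / V) ≤ V / Z * (1 / 100 + C * (I2 / V)) :=
    mul_le_mul_of_nonneg_left hVV hq0
  rw [h10]
  obtain ⟨q, hqd⟩ : ∃ q, q = V / Z := ⟨_, rfl⟩
  obtain ⟨i2, hi2d⟩ : ∃ i, i = I2 / V := ⟨_, rfl⟩
  rw [← hqd] at h11 h6 hq2 hq0 hA3 ⊢
  rw [← hi2d] at h11 ⊢
  rw [div_le_iff₀ (by positivity)]
  nlinarith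

theorem VV_quarter {D : Set (Eu κ)} (hD : IsCompact D) (hvol : 0 < volume D) {f : Eu κ → ℝ}
    (hb : ∀ x, |f x| ≤ 1 / 2) : VV D f ≤ 1 / 4 := by
  have hpos : 0 < (volume D).toReal := ENNReal.toReal_pos hvol.ne' hD.measure_lt_top.ne
  have h1 : EV D (fun x => f x ^ 2) ≤ 1 / 4 := by
    unfold EV
    rw [div_le_iff₀ hpos]
    have := norm_setIntegral_le_of_norm_le_const (μ := volume) (s := D) (f := fun x => f x ^ 2)
      (C := 1 / 4) hD.measure_lt_top (fun x _ => by
        rw [Real.norm_eq_abs, abs_pow]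
        have := pow_le_pow_left₀ (abs_nonneg _) (hb x) 2
        norm_num at this ⊢
        exact this)
    exact (le_abs_self _).trans this
  unfold VV
  nlinarith [sq_nonneg (EV D f)]

theorem iso (D : Set (Eu κ)) (hD : IsCompact D) (hconv : Convex ℝ D) (hvol : 0 < volume D)
    (C : ℝ) (hC : 0 < C)
    (hP : ∀ (v : Eu κ → ℝ) (L : ℝ), ContDiff ℝ 1 v → (∀ x, |v x| ≤ 1) →
      (∀ x, ‖fderiv ℝ v x‖ ≤ L) → VV D v ≤ 1 / 100 + C * EV D fun x => ‖fderiv ℝ v x‖ ^ 2)
    (μ : Measure (Eu κ)) (hμ : μ = (volume D)⁻¹ • volume.restrict D) (S : Set (Eu κ))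
    (hS2 : μ S = 1 / 2) :
    μ S * (1 - μ S) ≤ ENNReal.ofReal (Real.sqrt (50 * C)) *
      liminf (fun ε : ℝ => (μ (Metric.thickening ε S) - μ S) / ENNReal.ofReal ε) (𝓝[>] 0) := by
  refine Pool.Agent.W695.KH.mink2 D hD hvol (Real.sqrt (50 * C)) (by positivity)
    (fun f L M hf hb hV => ?_) μ hμ S hS2
  have h1 := Pool.Agent.W695.KH.body κ D hD hconv hvol (1 / 25) (1 / (50 * C)) (by norm_num)
    (by positivity) (wpo D hD hconv hvol C hC hP) f L M hf hb (by linarith)
  have hg0 : 0 ≤ EV D fun x => ‖fderiv ℝ f x‖ := by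
    unfold EV
    exact div_nonneg (integral_nonneg fun x => norm_nonneg _) ENNReal.toReal_nonneg
  have h2 := VV_quarter hD hvol hb
  refine le_of_sq_le_sq ?_ (by positivity)
  rw [mul_pow, Real.sq_sqrt (by positivity)]
  have h3 : 4 / (1 / (50 * C)) = 200 * C := by
    field_simp
    norm_num
  rw [h3] at h1
  have h4 : 0 ≤ VV D f := by linarith
  nlinarith [mul_le_mul_of_nonneg_left h2 h4]

end Run7.h444.SC
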