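import Pool.Agent.Run7.h444.SC.H

/-!
# Concentration of symmetric sets: bodies (helper444)
-/

set_option autoImplicit false

namespace Run7.h444.SC

open MeasureTheory Set Filter Topology
open scoped ENNReal InnerProductSpace
open Pool.Agent.W695.KH (Eu EU EV VV Sm Pot Uu WPo)
open Pool.Agent.H212R2.KLS (mu Bdd)
open Pool.Agent.H888R2.KT (LC)
open Pool.Agent.R754.KG (E un)
open Pool.Agent.R755.KF (BL PB)
open Pool.Agent.N483.KM (po LCI CR)

variable {k : ℕ}

/-- the normalised density of a body -/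
noncomputable def dn (K : Set (E k)) : E k → ℝ := K.indicator fun _ => ((volume K).toReal)⁻¹

theorem mu_dn {K : Set (E k)} (hK : IsCompact K) (hvol : 0 < volume K) :
    mu (dn K) = (volume K)⁻¹ • volume.restrict K := by
  have hfin : volume K ≠ ⊤ := hK.measure_lt_top.ne
  unfold mu dn
  have : (fun x : E k => ENNReal.ofReal (K.indicator (fun _ => ((volume K).toReal)⁻¹) x)) =
      K.indicator fun _ => (volume K)⁻¹ := by
    funext x
    by_cases hx : x ∈ K
    · simp only [indicator_of_mem hx]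
      rw [← ENNReal.toReal_inv, ENNReal.ofReal_toReal (ENNReal.inv_ne_top.2 hvol.ne')]
    · simp [indicator_of_notMem hx]
  rw [this, withDensity_indicator hK.measurableSet, withDensity_const]

theorem dn_sb {K : Set (E k)} (hK : IsCompact K) (hc : Convex ℝ K) (hvol : 0 < volume K)
    (hsym : ∀ x ∈ K, -x ∈ K) : SB (dn K) := by
  have hfin : volume K ≠ ⊤ := hK.measure_lt_top.ne
  have hpos : 0 < (volume K).toReal := ENNReal.toReal_pos hvol.ne' hfin
  have hi : 0 < ((volume K).toReal)⁻¹ := inv_pos.2 hpos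
  have hun : mu (dn K) univ = 1 := by
    rw [mu_dn hK hvol, Measure.smul_apply, Measure.restrict_apply_univ, smul_eq_mul,
      ENNReal.inv_mul_cancel hvol.ne' hfin]
  obtain ⟨R, hR⟩ := hK.isBounded.exists_norm_le
  refine ⟨⟨fun x => indicator_nonneg (fun _ _ => hi.le) x,
    (measurable_const.indicator hK.measurableSet), fun x y t ht ht1 => ?_, ⟨R, fun x hx => ?_⟩,
    ?_, ?_⟩, fun x => ?_, ?_⟩
  · unfold dn
    by_cases hx : x ∈ K
    · by_cases hy : y ∈ K
      · have hz : (1 - t) • x + t • y ∈ K := hc hx hy (by linarith) ht.le (by ring)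
        rw [indicator_of_mem hx, indicator_of_mem hy, indicator_of_mem hz, ← Real.rpow_add hi]
        simp
      · rw [indicator_of_notMem hy, Real.zero_rpow ht.ne', mul_zero]
        exact indicator_nonneg (fun _ _ => hi.le) _
    · rw [indicator_of_notMem hx, Real.zero_rpow (sub_pos.2 ht1).ne', zero_mul]
      exact indicator_nonneg (fun _ _ => hi.le) _
  · unfold dn
    rw [indicator_of_notMem]
    intro h
    exact absurd (hR x h) (not_le.2 hx)
  · rw [hun]
    exact ENNReal.one_ne_top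
  · intro h
    rw [h] at hun
    simp at hun
  · unfold dn
    by_cases hx : x ∈ K
    · rw [indicator_of_mem hx, indicator_of_mem (hsym x hx)]
    · rw [indicator_of_notMem hx, indicator_of_notMem fun h => hx (by simpa using hsym _ h)]
  · refine ⟨k, K, LinearMap.id, 0, hc, hK, hvol, ?_⟩
    rw [mu_dn hK hvol]
    simp only [LinearMap.id_coe, id_eq, zero_add]
    exact (Measure.map_id (μ := un K)).symm

/-- **Isoperimetry for symmetric bodies from the concentration of symmetric sets** -/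
theorem main : ∃ p Q : ℝ, 0 < p ∧ 0 < Q ∧ ∀ (k : ℕ) (K : Set (E k)), IsCompact K → Convex ℝ K →
    0 < volume K → (∀ x ∈ K, -x ∈ K) → ∀ μ : Measure (E k),
    μ = (volume K)⁻¹ • volume.restrict K → ∀ r s : ℝ, 0 < r → 0 ≤ s →
    (∀ w : E k, ∫ x, ⟪x, w⟫_ℝ ^ 2 ∂μ ≤ s * ‖w‖ ^ 2) → SymC μ p r → ∀ S : Set (E k), μ S = 1 / 2 →
    1 / 4 ≤ ENNReal.ofReal (Q * Real.sqrt (r ^ 2 + s)) *
      liminf (fun ε : ℝ => (μ (Metric.thickening ε S) - μ S) / ENNReal.ofReal ε) (𝓝[>] 0) := by
  obtain ⟨p, Ca, hp, hCa, H⟩ := weak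
  refine ⟨p, Real.sqrt (50 * Ca), hp, by positivity,
    fun k K hK hc hvol hsym μ hμ r s hr hs hcov hS S hS2 => ?_⟩
  have hsb := dn_sb hK hc hvol hsym
  have hmu := mu_dn hK hvol
  rw [← hμ] at hmu
  have hfin : volume K ≠ ⊤ := hK.measure_lt_top.ne
  have hpos : 0 < (volume K).toReal := ENNReal.toReal_pos hvol.ne' hfin
  have hint : ∀ g : E k → ℝ, ∫ x, g x ∂μ = EV K g := by
    intro g
    rw [hμ, integral_smul_measure, ENNReal.toReal_inv, smul_eq_mul]
    unfold EV
    rw [inv_mul_eq_div]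
  have hw := H k (dn K) hsb r s hr hs (by rw [hmu]; exact hcov) (by rw [hmu]; exact hS)
  have hC : 0 < Ca * (r ^ 2 + s) := by positivity
  have h1 := iso K hK hc hvol (Ca * (r ^ 2 + s)) hC (fun v L hv hb hL => by
    have hB : BL (max 1 L) v := ⟨hv, fun y => (hb y).trans (le_max_left _ _),
      fun y => (hL y).trans (le_max_right _ _)⟩
    have h2 := hw _ v hB hb
    unfold Vr Dr at h2
    rw [hmu, hint, hint, hint] at h2
    exact h2) μ hμ S hS2
  rw [hS2] at h1
  have e1 : (1 / 2 : ℝ≥0∞) * (1 - 1 / 2) = 1 / 4 := by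
    have e2 : (1 : ℝ≥0∞) - 1 / 2 = 1 / 2 := by
      rw [one_div, ENNReal.one_sub_inv_two]
    rw [e2]
    have e3 : (1 / 2 : ℝ≥0∞) = ENNReal.ofReal (1 / 2) := by
      rw [ENNReal.ofReal_div_of_pos (by norm_num)]
      norm_num
    have e4 : (1 / 4 : ℝ≥0∞) = ENNReal.ofReal (1 / 4) := by
      rw [ENNReal.ofReal_div_of_pos (by norm_num)]
      norm_num
    rw [e3, e4, ← ENNReal.ofReal_mul (by norm_num)]
    norm_num
  rw [e1] at h1
  have e5 : Real.sqrt (50 * (Ca * (r ^ 2 + s))) = Real.sqrt (50 * Ca) * Real.sqrt (r ^ 2 + s) := by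
    rw [← Real.sqrt_mul (by positivity)]
    congr 1
    ring
  rw [e5] at h1
  rw [hS2]
  exact h1

end Run7.h444.SC
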